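import Mathlib
import Pool.Agent.H61.PF.Poly3

/-!
# Soluble profinite groups with the maximum condition for closed subgroups
-/

namespace Pool.Agent.Results.MP_c2f9c6_al.SolubleCase

open Pool.Agent.H61.PF

/-- A profinite group is soluble and satisfies the maximum condition for closed subgroups if and only
if it has a finite series of closed subgroups, each normal in the next, all of whose factors are
procyclic pro-`p` groups (the prime `p` depending on the factor). -/
theorem result (G : Type*) [Group G] [TopologicalSpace G] [IsTopologicalGroup G] [CompactSpace G]
    [T2Space G] [TotallyDisconnectedSpace G] :
    (Group.IsSolvable G ∧ MaxClosed G) ↔ PolyPro (⊤ : Subgroup G) :=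
  soluble_max_iff

end Pool.Agent.Results.MP_c2f9c6_al.SolubleCase
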