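import Mathlib
import Pool.Agent.H61.PF.Struct

/-!
# Structure of profinite groups with the maximum condition for closed subgroups
-/

namespace Pool.Agent.Results.MP_c2f9c6_al.StructureTheorem

open Pool.Agent.H61.PF

/-- A profinite group satisfies the maximum condition for closed subgroups if and only if it has an
open subgroup that is the product of finitely many elementwise commuting closed normal pro-`p`
subgroups, for distinct primes `p`, each satisfying the maximum condition; equivalently, only finitely
many primes divide its order and all its closed pro-`p` subgroups are topologically finitely
generated. -/
theorem result (G : Type*) [Group G] [TopologicalSpace G] [IsTopologicalGroup G] [CompactSpace G]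
    [T2Space G] [TotallyDisconnectedSpace G] :
    (MaxClosed G ↔ Structure G) ∧ (MaxClosed G ↔ SylowCondition G) :=
  max_iff

end Pool.Agent.Results.MP_c2f9c6_al.StructureTheorem
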